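import Mathlib
import Pool.Agent.Work.MP_c21e2e_ag.Curves
import Pool.Agent.Work.MP_c21e2e_ag.Geo14

/-!
# MP_c21e2e_ag: a component of a Hilbert scheme of space curves which exists only in
characteristic two

The curve is a union of eight double lines (double structures of very negative arithmetic genus)
and nine reduced lines in projective three-space over the algebraic closure of the field with two
elements, whose incidences encode the Fano plane.  Any flat family over a local domain in which
two is not zero with this special fibre would give a lift of all lines and all incidences, hence a
Fano plane in characteristic zero.
-/

open SpaceCurve

namespace Pool.Agent.Results.MP_c21e2e_ag.ComponentCharTwo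

/-- There is an integer `g` such that

* for some curve `X` in projective three-space over the algebraic closure of the field with two
  elements, with Hilbert polynomial `25 t + 1 - g`, no curve over a field of characteristic zero
  specialises to a curve which specialises to `X`: neither `X` nor any generisation of `X` is a
  specialisation of a curve in characteristic zero;
* for every scheme representing the Hilbert functor `Hilb_{25,g}` (over the integers), its base
  change to the algebraic closure of the field with two elements has an irreducible component which
  exists only in characteristic two. -/
theorem result :
    ∃ g : ℤ,
      (∃ X ∈ Hilb 25 g (CommRingCat.of (AlgebraicClosure (ZMod 2))),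
        ∀ (K₁ K₀ : CommRingCat.{0}) (X₁ : (P3 K₁).IdealSheafData) (X₀ : (P3 K₀).IdealSheafData),
          IsField K₁ → IsField K₀ → CharZero K₀ →
            SpecialisesTo 25 g X₁ X → ¬ SpecialisesTo 25 g X₀ X₁) ∧
      ∀ S : HilbertScheme 25 g, HasComponentOnlyInChar 2 S.H :=
  main

end Pool.Agent.Results.MP_c21e2e_ag.ComponentCharTwo
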